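import Mathlib
import Pool.Agent.MP_5aa3e6_al.Bridge

/-!
# The centre of the algebra of invariant differential operators on `𝔓_n × ℝ^(m,n)`

The definitions are in `Pool.Agent.MP_5aa3e6_al.Defs`.
-/

namespace Pool.Agent.Results.MP_5aa3e6_al.Center

open Pool.Agent.PnmCenter

/-- **The centre of `𝔻(𝔓_{n,m})`.** Write `n = q m + r` with `1 ≤ r ≤ m`. The operators `D_I`,
`I : {1,…,r} → {1,…,m}`, restrict to invariant differential operators `D I` on `𝔓_{n,m}` which
generate the centre `ZZ` of `𝔻(𝔓_{n,m})`, and there is an isomorphism of `ZZ` onto the algebra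
generated by the `r × r` minors of the generic `m × r` matrix mapping `D I` to the minor with
rows `I`. -/
theorem result (𝕜 : Type*) [RCLike 𝕜] {m n q r : ℕ} (hr : 1 ≤ r) (hrm : r ≤ m)
    (hn : n = q * m + r) :
    ∃ D : (Fin r → Fin m) → OP 𝕜 m n,
      (∀ I, Induced (D I) (DI hn I)) ∧
      ZZ 𝕜 m n = Algebra.adjoin 𝕜 (Set.range D) ∧
      ∃ e : ZZ 𝕜 m n ≃ₐ[𝕜] Algebra.adjoin 𝕜 (Set.range fun I : Fin r → Fin m => minor 𝕜 I),
        ∀ (I : Fin r → Fin m) (z : ZZ 𝕜 m n), z.1 = D I → (e z).1 = minor 𝕜 I :=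
  Pool.Agent.PnmCenter.main 𝕜 hr hrm hn

end Pool.Agent.Results.MP_5aa3e6_al.Center
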